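import Pool.Agent.MVO.StmtsN

/-!
# MVO: common lemmas for the rows NCB NCC NCD
-/

set_option autoImplicit false

namespace Pool.Agent.MVO.H43

open Pool.Agent.MVO Pool.Agent.Helper14_MV Pool.Agent.Helper2_MV

/-! ### vectors on few blocks -/

theorem deg1 (a : ℕ → ℕ) : deg 1 a = a 0 + a 1 := by
  unfold deg; simp [Finset.sum_range_succ]

theorem deg2 (a : ℕ → ℕ) : deg 2 a = a 0 + a 1 + a 2 := by
  unfold deg; simp [Finset.sum_range_succ]

theorem deg3 (a : ℕ → ℕ) : deg 3 a = a 0 + a 1 + a 2 + a 3 := by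
  unfold deg; simp [Finset.sum_range_succ]

theorem psh1 (f a : ℕ → ℕ) (l : ℕ) :
    psh 1 f a l = (if f 0 = l then a 0 else 0) + (if f 1 = l then a 1 else 0) := by
  unfold psh; simp [Finset.sum_range_succ]

theorem psh2 (f a : ℕ → ℕ) (l : ℕ) :
    psh 2 f a l = (if f 0 = l then a 0 else 0) + (if f 1 = l then a 1 else 0) +
      (if f 2 = l then a 2 else 0) := by
  unfold psh; simp [Finset.sum_range_succ]

theorem psh3 (f a : ℕ → ℕ) (l : ℕ) :
    psh 3 f a l = (if f 0 = l then a 0 else 0) + (if f 1 = l then a 1 else 0) +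
      (if f 2 = l then a 2 else 0) + (if f 3 = l then a 3 else 0) := by
  unfold psh; simp [Finset.sum_range_succ]

theorem mem_sp {k : ℕ} {a : ℕ → ℕ} {j : ℕ} : j ∈ sp k a ↔ j ≤ k ∧ a j ≠ 0 := by
  unfold sp
  rw [Finset.mem_filter, Finset.mem_range]
  constructor
  · rintro ⟨h1, h2⟩; exact ⟨by omega, h2⟩
  · rintro ⟨h1, h2⟩; exact ⟨by omega, h2⟩

theorem sp_max {k : ℕ} {a : ℕ → ℕ} (h : a k ≠ 0) : (sp k a).max = (k : WithBot ℕ) := by
  apply le_antisymm
  · refine Finset.max_le fun j hj => ?_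
    exact WithBot.coe_le_coe.mpr (mem_sp.mp hj).1
  · exact Finset.le_max (mem_sp.mpr ⟨le_refl k, h⟩)

/-- a map given by a list of values -/
def fl (l : List ℕ) : ℕ → ℕ := fun j => l.getD j 0

theorem bmap3 {a b c d k' : ℕ} (h1 : a ≤ b) (h2 : b ≤ c) (h3 : c ≤ d) (h4 : d ≤ k') :
    BMap 3 k' (fl [a, b, c, d]) := by
  constructor
  · intro i j hij hj
    interval_cases j <;> interval_cases i <;> simp [fl] <;> omega
  · intro i hi
    interval_cases i <;> simp [fl] <;> omega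

theorem bmap2 {a b c k' : ℕ} (h1 : a ≤ b) (h2 : b ≤ c) (h4 : c ≤ k') :
    BMap 2 k' (fl [a, b, c]) := by
  constructor
  · intro i j hij hj
    interval_cases j <;> interval_cases i <;> simp [fl] <;> omega
  · intro i hi
    interval_cases i <;> simp [fl] <;> omega

theorem bmap1 {a b k' : ℕ} (h1 : a ≤ b) (h4 : b ≤ k') :
    BMap 1 k' (fl [a, b]) := by
  constructor
  · intro i j hij hj
    interval_cases j <;> interval_cases i <;> simp [fl] <;> omega
  · intro i hi
    interval_cases i <;> simp [fl] <;> omega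

theorem p0112 (x : ℕ → ℕ) : psh 3 (fl [0, 1, 1, 2]) x = v3 (x 0) (x 1 + x 2) (x 3) := by
  funext l
  rw [psh3]
  rcases l with _ | _ | _ | l <;> simp [fl, v3]

theorem p0001 (x : ℕ → ℕ) : psh 3 (fl [0, 0, 0, 1]) x = v2 (x 0 + x 1 + x 2) (x 3) := by
  funext l
  rw [psh3]
  rcases l with _ | _ | l <;> simp [fl, v2]

theorem p0111 (x : ℕ → ℕ) : psh 3 (fl [0, 1, 1, 1]) x = v2 (x 0) (x 1 + x 2 + x 3) := by
  funext l
  rw [psh3]
  rcases l with _ | _ | l <;> simp [fl, v2]

theorem p0011 (x : ℕ → ℕ) : psh 3 (fl [0, 0, 1, 1]) x = v2 (x 0 + x 1) (x 2 + x 3) := by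
  funext l
  rw [psh3]
  rcases l with _ | _ | l <;> simp [fl, v2]

theorem p001 (x : ℕ → ℕ) : psh 2 (fl [0, 0, 1]) x = v2 (x 0 + x 1) (x 2) := by
  funext l
  rw [psh2]
  rcases l with _ | _ | l <;> simp [fl, v2]

theorem p011 (x : ℕ → ℕ) : psh 2 (fl [0, 1, 1]) x = v2 (x 0) (x 1 + x 2) := by
  funext l
  rw [psh2]
  rcases l with _ | _ | l <;> simp [fl, v2]

theorem p02 (x : ℕ → ℕ) : psh 1 (fl [0, 2]) x = v3 (x 0) 0 (x 1) := by
  funext l
  rw [psh1]
  rcases l with _ | _ | _ | l <;> simp [fl, v3]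

theorem p12 (x : ℕ → ℕ) : psh 1 (fl [1, 2]) x = v3 0 (x 0) (x 1) := by
  funext l
  rw [psh1]
  rcases l with _ | _ | _ | l <;> simp [fl, v3]

/-! ### the congruence -/

theorem nc2_of_iso3 {β : FIC} (h : Iso3 β) : NC2 β := by
  intro h1
  have h2 := h1.append (RR.refl (β := β) [0])
  have h3 := h _ h2
  simp at h3

theorem cen_of_cent {β : FIC} (h : Cent β) :
    ∃ K, ∀ m, K ≤ m → (FC.ofFIC β).R 1 (v2 m 0) (v2 0 m) := by
  obtain ⟨K, hK⟩ := h
  refine ⟨K, fun m hm => ?_⟩
  have h1 := (hK m hm).sub (fun c => if c = 0 then [0] else [2])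
  have e1 : (List.replicate m 0 ++ [1]).flatMap (fun c => if c = 0 then [0] else [2])
      = mw 1 (v2 m 0) := by
    rw [List.flatMap_append]
    have : ∀ m : ℕ, (List.replicate m 0).flatMap (fun c => if c = 0 then [0] else [2])
        = List.replicate m 0 := by
      intro m
      induction m with
      | zero => rfl
      | succ m ih => rw [List.replicate_succ, List.flatMap_cons, ih]; rfl
    rw [this]
    simp [mw, asm, v2]
  have e2 : (1 :: List.replicate m 0).flatMap (fun c => if c = 0 then [0] else [2])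
      = mw 1 (v2 0 m) := by
    rw [List.flatMap_cons]
    have : ∀ m : ℕ, (List.replicate m 0).flatMap (fun c => if c = 0 then [0] else [2])
        = List.replicate m 0 := by
      intro m
      induction m with
      | zero => rfl
      | succ m ih => rw [List.replicate_succ, List.flatMap_cons, ih]; rfl
    rw [this]
    simp [mw, asm, v2]
  rw [e1, e2] at h1
  exact h1

theorem l1_push {β : FIC} {k k' : ℕ} {f a b : ℕ → ℕ} (hf : BMap k k' f) (h : L1 β k a b) :
    L1 β k' (psh k f a) (psh k f b) :=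
  (FC.ofFIC β).push k' f hf h

theorem l1_symm {β : FIC} {k : ℕ} {a b : ℕ → ℕ} (h : L1 β k a b) : L1 β k b a :=
  (FC.ofFIC β).symm h

theorem l1_trans {β : FIC} {k : ℕ} {a b c : ℕ → ℕ} (h : L1 β k a b) (h' : L1 β k b c) :
    L1 β k a c :=
  (FC.ofFIC β).trans h h'

/-- a relation with the type `(3,0)` gives `O3` -/
theorem o3_of_rel {β : FIC} (hO1 : O1 (FC.ofFIC β)) {p q : ℕ} (hpq : p + q = 3) (hq : 1 ≤ q)
    (h : L1 β 1 (v2 p q) (v2 3 0)) (h3 : O2 (FC.ofFIC β) ∨ q ≤ 2) : O3 (FC.ofFIC β) := by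
  have h1 : L1 β 1 (v2 2 1) (v2 1 2) := hO1
  have hq3 : q ≤ 3 := by omega
  interval_cases q
  · have hp : p = 2 := by omega
    subst hp
    exact l1_symm h
  · have hp : p = 1 := by omega
    subst hp
    exact l1_trans (l1_symm h) (l1_symm h1)
  · have hp : p = 0 := by omega
    subst hp
    rcases h3 with h3 | h3
    · have h2 : L1 β 1 (v2 1 2) (v2 0 3) := h3
      exact l1_trans (l1_symm h) (l1_trans (l1_symm h2) (l1_symm h1))
    · omega

end Pool.Agent.MVO.H43
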