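import Pool.Agent.Helper43_MVO.NCommon

/-!
# MVO row NCB (second clause of class a over `O1`)
-/

set_option autoImplicit false

namespace Pool.Agent.MVO.H43

open Pool.Agent.MVO Pool.Agent.Helper14_MV Pool.Agent.Helper2_MV

/-- the type of the second letter -/
def Yb (y : ℕ → ℕ) : Prop := y 0 = 1 ∧ y 1 = 0 ∧ y 2 = 0 ∧ y 3 = 1

/-- the first set of pairs -/
def Tb1 (x y : ℕ → ℕ) : Prop := (x 0 = 0 ∧ x 1 = 1 ∧ x 2 = 1 ∧ x 3 = 1) ∧ Yb y

/-- the second set of pairs -/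
def Tb2 (β : FIC) (x y : ℕ → ℕ) : Prop :=
  Yb y ∧ x 0 + x 1 + x 2 + x 3 = 3 ∧ 1 ≤ x 3 ∧ (O2 (FC.ofFIC β) ∨ (x 0 = 0 ∧ 1 ≤ x 1))

theorem tb1_ext : TExt 3 Tb1 := by
  intro a a' b b' ha hb h
  obtain ⟨⟨h0, h1, h2, h3⟩, g0, g1, g2, g3⟩ := h
  have e0 := ha 0 (by omega); have e1 := ha 1 (by omega)
  have e2 := ha 2 (by omega); have e3 := ha 3 (by omega)
  have f0 := hb 0 (by omega); have f1 := hb 1 (by omega)
  have f2 := hb 2 (by omega); have f3 := hb 3 (by omega)
  exact ⟨⟨by omega, by omega, by omega, by omega⟩, by omega, by omega, by omega, by omega⟩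

theorem tb2_ext (β : FIC) : TExt 3 (Tb2 β) := by
  intro a a' b b' ha hb h
  obtain ⟨⟨g0, g1, g2, g3⟩, h1, h2, h3⟩ := h
  have e0 := ha 0 (by omega); have e1 := ha 1 (by omega)
  have e2 := ha 2 (by omega); have e3 := ha 3 (by omega)
  have f0 := hb 0 (by omega); have f1 := hb 1 (by omega)
  have f2 := hb 2 (by omega); have f3 := hb 3 (by omega)
  refine ⟨⟨by omega, by omega, by omega, by omega⟩, by omega, by omega, ?_⟩
  rcases h3 with h3 | ⟨h3, h4⟩
  · exact Or.inl h3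
  · exact Or.inr ⟨by omega, by omega⟩

theorem yb_deg {y : ℕ → ℕ} (h : Yb y) : deg 3 y = 2 ∧ (sp 3 y).max = ((3 : ℕ) : WithBot ℕ) := by
  obtain ⟨g0, g1, g2, g3⟩ := h
  refine ⟨by rw [deg3]; omega, sp_max (by omega)⟩

theorem tb1_last : TLast 3 3 Tb1 := by
  intro a b h
  obtain ⟨⟨h0, h1, h2, h3⟩, hy⟩ := h
  obtain ⟨hd, hm⟩ := yb_deg hy
  exact ⟨by rw [deg3]; omega, by omega, sp_max (by omega), hm⟩

theorem tb2_last (β : FIC) : TLast 3 3 (Tb2 β) := by
  intro a b h
  obtain ⟨hy, h1, h2, h3⟩ := h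
  obtain ⟨hd, hm⟩ := yb_deg hy
  exact ⟨by rw [deg3]; omega, by omega, sp_max (by omega), hm⟩

theorem tb1_deg : TDeg 3 Tb1 := by
  intro a b h
  obtain ⟨⟨h0, h1, h2, h3⟩, hy⟩ := h
  exact ⟨by rw [deg3]; omega, (yb_deg hy).1⟩

theorem tb2_deg (β : FIC) : TDeg 3 (Tb2 β) := by
  intro a b h
  obtain ⟨hy, h1, h2, h3⟩ := h
  exact ⟨by rw [deg3]; omega, (yb_deg hy).1⟩

theorem yb_iso (hISO : IsoStmt) {β : FIC} (hth : β ≤ thC3) (hi : Iso3 β) {y y' : ℕ → ℕ}
    (hy : Yb y) (h : L1 β 3 y y') : Yb y' := by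
  have hy' := hy
  obtain ⟨g0, g1, g2, g3⟩ := hy
  have h1 := hISO β hth hi 3 y y' (yb_deg hy').1 (by
    intro j hj
    interval_cases j <;> omega) h
  have e0 := h1 0 (by omega); have e1 := h1 1 (by omega)
  have e2 := h1 2 (by omega); have e3 := h1 3 (by omega)
  exact ⟨by omega, by omega, by omega, by omega⟩

theorem psh_0201 (f : ℕ → ℕ) (l : ℕ) : psh 3 f (v4 0 2 0 1) l
    = (if f 1 = l then 2 else 0) + (if f 3 = l then 1 else 0) := by
  rw [psh3]; simp [v4]

theorem psh_0111 (f : ℕ → ℕ) (l : ℕ) : psh 3 f (v4 0 1 1 1) l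
    = (if f 1 = l then 1 else 0) + (if f 2 = l then 1 else 0) + (if f 3 = l then 1 else 0) := by
  rw [psh3]; simp [v4]

theorem no_psh (f : ℕ → ℕ) (h1 : psh 3 f (v4 0 2 0 1) 1 = 1) (h2 : psh 3 f (v4 0 2 0 1) 2 = 1) :
    False := by
  rw [psh_0201] at h1 h2
  have a1 : f 3 = 1 := by
    by_contra h
    rw [if_neg h] at h1
    split_ifs at h1 <;> omega
  rw [a1] at h2
  rw [if_neg (by omega : ¬ (1 : ℕ) = 2)] at h2
  split_ifs at h2 <;> omega

theorem key_b (f : ℕ → ℕ) (m12 : f 1 ≤ f 2) (m23 : f 2 ≤ f 3) (m3 : f 3 ≤ 3) :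
    ((psh 3 f (v4 0 2 0 1) 0 + psh 3 f (v4 0 2 0 1) 1 + psh 3 f (v4 0 2 0 1) 2 +
          psh 3 f (v4 0 2 0 1) 3 = 3) ↔
        (psh 3 f (v4 0 1 1 1) 0 + psh 3 f (v4 0 1 1 1) 1 + psh 3 f (v4 0 1 1 1) 2 +
          psh 3 f (v4 0 1 1 1) 3 = 3)) ∧
        ((1 ≤ psh 3 f (v4 0 2 0 1) 3) ↔ (1 ≤ psh 3 f (v4 0 1 1 1) 3)) ∧
        ((1 ≤ psh 3 f (v4 0 2 0 1) 3) → ((psh 3 f (v4 0 2 0 1) 0 = 0 ∧ 1 ≤ psh 3 f (v4 0 2 0 1) 1) ↔
          (psh 3 f (v4 0 1 1 1) 0 = 0 ∧ 1 ≤ psh 3 f (v4 0 1 1 1) 1))) := by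
  simp only [psh_0201, psh_0111]
  generalize f 1 = u1 at *
  generalize f 2 = u2 at *
  generalize f 3 = u3 at *
  interval_cases u3 <;> interval_cases u2 <;> interval_cases u1 <;> decide

theorem ncb (hLNN : LnnStmt) (hGTB : GtbStmt) (hGTN : GtnStmt) (hGTS : GtsStmt) (hGTK : GtkStmt)
    (hGAA : GaaStmt) (hRGA : RgaStmt) (hWUA : WuaStmt) (_hOAA : OaaStmt) (hOAR : OarStmt)
    (hISO : IsoStmt) (hFAA : FaaStmt) : NcbStmt := by
  intro β hA hO1 hO3
  by_contra hcon
  rw [not_or] at hcon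
  obtain ⟨hII, hg1⟩ := hcon
  have hth := hA.th
  have hi := hA.iso
  have hcl := hA.cl
  have hK := cen_of_cent hA.ce
  have h21 : L1 β 1 (v2 2 1) (v2 1 2) := hO1
  obtain ⟨-, F2, -, F4, -, -⟩ := hFAA β hcl
  -- a relation which changes the degree
  have hW : ∀ x x' : ℕ → ℕ, deg 3 x = 3 → L1 β 3 x x' → deg 3 x' ≠ 3 → L1 β 3 x (sg 0 3) := by
    intro x x' hd h hne
    have h1 := (hWUA (FC.ofFIC β) hO1 hK 3 x x' (by omega) (by omega) h).1 0 (by omega)
    rw [hd] at h1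
    exact h1
  -- relations which leave the last block
  have hU : ∀ x z : ℕ → ℕ, x 0 + x 1 + x 2 + x 3 = 3 → 1 ≤ x 3 →
      (O2 (FC.ofFIC β) ∨ (x 0 = 0 ∧ 1 ≤ x 1)) → z 0 + z 1 + z 2 + z 3 = 3 → z 3 = 0 →
      L1 β 3 x z → False := by
    intro x z hx hx3 ho hz hz3 h
    have h1 := l1_push (bmap3 (a := 0) (b := 0) (c := 0) (d := 1) (k' := 1) (by omega) (by omega)
      (by omega) (by omega)) h
    rw [p0001, p0001] at h1
    have e : z 0 + z 1 + z 2 = 3 := by omega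
    rw [e, hz3] at h1
    refine hO3 (o3_of_rel hO1 (by omega) hx3 h1 ?_)
    rcases ho with ho | ⟨ho1, ho2⟩
    · exact Or.inl ho
    · exact Or.inr (by omega)
  -- relations of the type `(0,1,1,1)`
  have hV : ∀ x z : ℕ → ℕ, (x 0 = 0 ∧ x 1 = 1 ∧ x 2 = 1 ∧ x 3 = 1) → deg 3 z = 3 →
      ¬ (z 0 = 0 ∧ z 1 = 1 ∧ z 2 = 1 ∧ z 3 = 1) → L1 β 3 x z → False := by
    intro x z hx hz hne h
    obtain ⟨x0, x1, x2, x3⟩ := hx
    have hspx : sp 3 x = {1, 2, 3} := by
      ext j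
      rw [mem_sp]
      simp only [Finset.mem_insert, Finset.mem_singleton]
      constructor
      · rintro ⟨h1, h2⟩
        interval_cases j
        · omega
        · omega
        · omega
        · omega
      · rintro (rfl | rfl | rfl) <;> constructor <;> omega
    have hsp : sp 3 x ≠ sp 3 z := by
      intro he
      apply hne
      rw [hspx] at he
      have m0 : (0 : ℕ) ∉ sp 3 z := by rw [← he]; simp
      have m1 : (1 : ℕ) ∈ sp 3 z := by rw [← he]; simp
      have m2 : (2 : ℕ) ∈ sp 3 z := by rw [← he]; simp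
      have m3 : (3 : ℕ) ∈ sp 3 z := by rw [← he]; simp
      rw [mem_sp] at m0 m1 m2 m3
      rw [deg3] at hz
      have z0 : z 0 = 0 := by
        by_contra hh
        exact m0 ⟨by omega, hh⟩
      have := m1.2; have := m2.2; have := m3.2
      exact ⟨z0, by omega, by omega, by omega⟩
    have hdx : deg 3 x = 3 := by rw [deg3]; omega
    have h1 := (hOAR (FC.ofFIC β) 3 x z (Or.inl hO1) (by omega) (by omega) h hsp).1
    have hcard : (sp 3 x).card = 3 := by rw [hspx]; rfl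
    rw [hdx] at h1
    have s1 : sp 2 (v3 1 1 1) = {0, 1, 2} := by decide
    have s2 : sp 2 (v3 2 0 1) = {0, 2} := by decide
    apply hII
    refine h1 2 (v3 1 1 1) (v3 2 0 1) (by decide) (by decide) ?_ ?_ ?_ ?_
    · rw [s1]
      refine le_trans ?_ (le_max_left _ _)
      rw [hcard]; decide
    · rw [s2]
      refine le_trans ?_ (le_max_left _ _)
      rw [hcard]; decide
    · rw [s1, s2]; decide
    · rw [s1, s2]; decide
  -- the congruence `G1`
  have hG1 : β ≤ GT 3 Tb1 := by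
    refine hGTB β hth (nc2_of_iso3 hi) hcl 3 3 Tb1 tb1_ext tb1_last ?_ ?_
    · intro a b a' b' hT ha hb
      refine ⟨?_, yb_iso hISO hth hi hT.2 hb⟩
      by_contra hne
      have hda : deg 3 a = 3 := by
        obtain ⟨⟨h0, h1, h2, h3⟩, -⟩ := hT
        rw [deg3]; omega
      by_cases hd : deg 3 a' = 3
      · exact hV a a' hT.1 hd hne ha
      · exact hV a (sg 0 3) hT.1 (by decide) (by simp [sg]) (hW a a' hda ha hd)
    · intro a b hT hBt
      have hl := tb1_last a b hT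
      obtain ⟨⟨h0, h1, h2, h3⟩, g0, g1, g2, g3⟩ := hT
      have h4 := F4 3 2 _ a b 3 (bmap3 (a := 0) (b := 1) (c := 1) (d := 2) (by omega) (by omega)
        (by omega) (by omega)) hl.1 hl.2.1 (le_refl 3) hl.2.2.1 hl.2.2.2 hBt
      rw [p0112, p0112, h0, h1, h2, h3, g0, g1, g2, g3] at h4
      exact hg1 h4
  have hG2 : β ≤ GT 3 (Tb2 β) := by
    refine hGTB β hth (nc2_of_iso3 hi) hcl 3 3 (Tb2 β) (tb2_ext β) (tb2_last β) ?_ ?_
    · intro a b a' b' hT ha hb
      obtain ⟨hy, hs, ha3, ho⟩ := hT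
      have hda : deg 3 a = 3 := by rw [deg3]; omega
      have hd : deg 3 a' = 3 := by
        by_contra hd
        exact hU a (sg 0 3) hs ha3 ho (by simp [sg]) (by simp [sg]) (hW a a' hda ha hd)
      have hs' : a' 0 + a' 1 + a' 2 + a' 3 = 3 := by rw [← deg3]; exact hd
      have ha3' : 1 ≤ a' 3 := by
        by_contra hlt
        exact hU a a' hs ha3 ho hs' (by omega) ha
      refine ⟨yb_iso hISO hth hi hy hb, hs', ha3', ?_⟩
      rcases ho with ho | ⟨ho1, ho2⟩
      · exact Or.inl ho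
      by_cases hc0 : a' 0 = 0
      · by_cases hc1 : 1 ≤ a' 1
        · exact Or.inr ⟨hc0, hc1⟩
        · left
          have h1 := l1_push (bmap3 (a := 0) (b := 0) (c := 1) (d := 1) (k' := 1) (by omega)
            (by omega) (by omega) (by omega)) ha
          rw [p0011, p0011] at h1
          have e1 : a' 0 + a' 1 = 0 := by omega
          have e2 : a' 2 + a' 3 = 3 := by omega
          rw [e1, e2] at h1
          have hcase : a 0 + a 1 = 1 ∨ a 0 + a 1 = 2 := by omega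
          rcases hcase with hc | hc
          · have e3 : a 2 + a 3 = 2 := by omega
            rw [hc, e3] at h1
            exact h1
          · have e3 : a 2 + a 3 = 1 := by omega
            rw [hc, e3] at h1
            exact l1_trans (l1_symm h21) h1
      · left
        have h1 := l1_push (bmap3 (a := 0) (b := 1) (c := 1) (d := 1) (k' := 1) (by omega)
          (by omega) (by omega) (by omega)) ha
        rw [p0111, p0111] at h1
        have e1 : a 1 + a 2 + a 3 = 3 := by omega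
        rw [ho1, e1] at h1
        have hcase : a' 0 = 1 ∨ a' 0 = 2 := by omega
        rcases hcase with hc | hc
        · have e3 : a' 1 + a' 2 + a' 3 = 2 := by omega
          rw [hc, e3] at h1
          exact l1_symm h1
        · have e3 : a' 1 + a' 2 + a' 3 = 1 := by omega
          rw [hc, e3] at h1
          exact l1_trans (l1_symm h21) (l1_symm h1)
    · intro a b hT hBt
      have hl := tb2_last β a b hT
      obtain ⟨⟨g0, g1, g2, g3⟩, hs, ha3, ho⟩ := hT
      have q21 : L1 β 2 (v3 0 2 1) (v3 0 1 2) := by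
        have h1 := l1_push (bmap1 (a := 1) (b := 2) (k' := 2) (by omega) (by omega)) h21
        rw [p12, p12] at h1
        exact h1
      rcases ho with ho | ⟨ho1, ho2⟩
      · have h12 : L1 β 1 (v2 1 2) (v2 0 3) := ho
        have h4 := F4 3 1 _ a b 3 (bmap3 (a := 0) (b := 0) (c := 0) (d := 1) (by omega) (by omega)
          (by omega) (by omega)) hl.1 hl.2.1 (le_refl 3) hl.2.2.1 hl.2.2.2 hBt
        rw [p0001, p0001, g0, g1, g2, g3] at h4
        have h5 : L1 β 1 (v2 0 3) (v2 (a 0 + a 1 + a 2) (a 3)) := by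
          have hcase : a 3 = 1 ∨ a 3 = 2 ∨ a 3 = 3 := by omega
          rcases hcase with hc | hc | hc
          · have e : a 0 + a 1 + a 2 = 2 := by omega
            rw [hc, e]
            exact l1_symm (l1_trans h21 h12)
          · have e : a 0 + a 1 + a 2 = 1 := by omega
            rw [hc, e]
            exact l1_symm h12
          · have e : a 0 + a 1 + a 2 = 0 := by omega
            rw [hc, e]
            exact (FC.ofFIC β).refl 1 _
        have h6 := F2 1 _ _ _ _ h5 h4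
        have h7 := F4 1 2 _ _ _ _ (bmap1 (a := 0) (b := 2) (by omega) (by omega))
          (by decide) (by decide) (le_refl 1) (sp_max (by decide)) (sp_max (by decide)) h6
        rw [p02, p02] at h7
        have h8 : L1 β 2 (v3 0 2 1) (v3 0 0 3) := by
          have h9 := l1_push (bmap1 (a := 1) (b := 2) (k' := 2) (by omega) (by omega))
            (l1_trans h21 h12)
          rw [p12, p12] at h9
          exact h9
        exact hg1 (F2 2 _ _ _ _ h8 h7)
      · have h4 := F4 3 2 _ a b 3 (bmap3 (a := 0) (b := 1) (c := 1) (d := 2) (by omega) (by omega)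
          (by omega) (by omega)) hl.1 hl.2.1 (le_refl 3) hl.2.2.1 hl.2.2.2 hBt
        rw [p0112, p0112, g0, g1, g2, g3, ho1] at h4
        have hcase : a 3 = 1 ∨ a 3 = 2 := by omega
        rcases hcase with hc | hc
        · have e : a 1 + a 2 = 2 := by omega
          rw [hc, e] at h4
          exact hg1 h4
        · have e : a 1 + a 2 = 1 := by omega
          rw [hc, e] at h4
          exact hg1 (F2 2 _ _ _ _ q21 h4)
  -- the exchange in `G1`
  have hBt1 : Bt (GT 3 Tb1) 3 (v4 0 2 0 1) (v4 1 0 0 1) 3 := by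
    refine hGTS 3 Tb1 tb1_ext tb1_deg 3 _ _ (by decide) (by decide) ?_ 3
    intro f hf hT
    obtain ⟨⟨h0, h1, h2, h3⟩, -⟩ := hT
    exact no_psh f h1 h2
  -- the type change in `G2`
  have hL2 : L1 (GT 3 (Tb2 β)) 3 (v4 0 2 0 1) (v4 0 1 1 1) := by
    refine hGTK 3 (Tb2 β) (tb2_ext β) (tb2_deg β) 3 _ _ (by decide) (by decide) (by decide)
      (by decide) ?_
    intro f hf b
    have m12 : f 1 ≤ f 2 := hf.mono 1 2 (by omega) (by omega)
    have m23 : f 2 ≤ f 3 := hf.mono 2 3 (by omega) (by omega)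
    have m3 : f 3 ≤ 3 := hf.le 3 (by omega)
    have key := key_b f m12 m23 m3
    unfold Tb2
    constructor
    · rintro ⟨h1, h2, h3, h4⟩
      refine ⟨h1, key.1.mp h2, key.2.1.mp h3, ?_⟩
      rcases h4 with h4 | h4
      · exact Or.inl h4
      · exact Or.inr ((key.2.2 h3).mp h4)
    · rintro ⟨h1, h2, h3, h4⟩
      have h3' := key.2.1.mpr h3
      refine ⟨h1, key.1.mpr h2, h3', ?_⟩
      rcases h4 with h4 | h4
      · exact Or.inl h4
      · exact Or.inr ((key.2.2 h3').mpr h4)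
  have hfin := hLNN β hth (nc2_of_iso3 hi) (hGAA β hcl) (hRGA β hcl) hA.md _ _ hG1 hG2 3
    (v4 0 2 0 1) (v4 0 1 1 1) (v4 1 0 0 1) 3 (by decide) (by decide) (by decide) (le_refl 3)
    hBt1 hL2
  rcases hfin with h | h
  · exact hGTN 3 3 Tb1 tb1_ext tb1_last (le_refl 3) _ _
      ⟨⟨rfl, rfl, rfl, rfl⟩, rfl, rfl, rfl, rfl⟩ h
  · exact hGTN 3 3 (Tb2 β) (tb2_ext β) (tb2_last β) (le_refl 3) _ _
      ⟨⟨rfl, rfl, rfl, rfl⟩, rfl, by decide, Or.inr ⟨rfl, by decide⟩⟩ h

end Pool.Agent.MVO.H43
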