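import Pool.Agent.Helper43_MVO.NCommon

/-!
# MVO row NCD (first clause of class a over `O2`)
-/

set_option autoImplicit false

namespace Pool.Agent.MVO.H43

open Pool.Agent.MVO Pool.Agent.Helper14_MV Pool.Agent.Helper2_MV

/-- the type of the second letter -/
def Yd (y : ℕ → ℕ) : Prop := y 0 = 1 ∧ y 1 = 1

/-- the first set of pairs -/
def Td1 (x y : ℕ → ℕ) : Prop := (x 0 = 2 ∧ x 1 = 1) ∧ Yd y

/-- the second set of pairs -/
def Td2 (x y : ℕ → ℕ) : Prop := (x 0 + x 1 = 3 ∧ 1 ≤ x 1) ∧ Yd y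

theorem td1_ext : TExt 1 Td1 := by
  intro a a' b b' ha hb h
  obtain ⟨⟨h0, h1⟩, g0, g1⟩ := h
  have e0 := ha 0 (by omega); have e1 := ha 1 (by omega)
  have f0 := hb 0 (by omega); have f1 := hb 1 (by omega)
  exact ⟨⟨by omega, by omega⟩, by omega, by omega⟩

theorem td2_ext : TExt 1 Td2 := by
  intro a a' b b' ha hb h
  obtain ⟨⟨h0, h1⟩, g0, g1⟩ := h
  have e0 := ha 0 (by omega); have e1 := ha 1 (by omega)
  have f0 := hb 0 (by omega); have f1 := hb 1 (by omega)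
  exact ⟨⟨by omega, by omega⟩, by omega, by omega⟩

theorem yd_deg {y : ℕ → ℕ} (h : Yd y) : deg 1 y = 2 ∧ (sp 1 y).max = ((1 : ℕ) : WithBot ℕ) := by
  obtain ⟨g0, g1⟩ := h
  refine ⟨by rw [deg1]; omega, sp_max (by omega)⟩

theorem td1_last : TLast 1 1 Td1 := by
  intro a b h
  obtain ⟨⟨h0, h1⟩, hy⟩ := h
  obtain ⟨hd, hm⟩ := yd_deg hy
  exact ⟨by rw [deg1]; omega, by omega, sp_max (by omega), hm⟩

theorem td2_last : TLast 1 1 Td2 := by
  intro a b h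
  obtain ⟨⟨h0, h1⟩, hy⟩ := h
  obtain ⟨hd, hm⟩ := yd_deg hy
  exact ⟨by rw [deg1]; omega, by omega, sp_max (by omega), hm⟩

theorem td1_deg : TDeg 1 Td1 := by
  intro a b h
  obtain ⟨⟨h0, h1⟩, hy⟩ := h
  exact ⟨by rw [deg1]; omega, (yd_deg hy).1⟩

theorem td2_deg : TDeg 1 Td2 := by
  intro a b h
  obtain ⟨⟨h0, h1⟩, hy⟩ := h
  exact ⟨by rw [deg1]; omega, (yd_deg hy).1⟩

theorem yd_iso (hISO : IsoStmt) {β : FIC} (hth : β ≤ thC3) (hi : Iso3 β) {y y' : ℕ → ℕ}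
    (hy : Yd y) (h : L1 β 1 y y') : Yd y' := by
  have hy' := hy
  obtain ⟨g0, g1⟩ := hy
  have h1 := hISO β hth hi 1 y y' (yd_deg hy').1 (by
    intro j hj
    interval_cases j <;> omega) h
  have e0 := h1 0 (by omega); have e1 := h1 1 (by omega)
  exact ⟨by omega, by omega⟩

theorem p01 (x : ℕ → ℕ) : psh 1 (fl [0, 1]) x = v2 (x 0) (x 1) := by
  funext l
  rw [psh1]
  rcases l with _ | _ | l <;> simp [fl, v2]

theorem psh_03 (f : ℕ → ℕ) (l : ℕ) : psh 1 f (v2 0 3) l = if f 1 = l then 3 else 0 := by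
  rw [psh1]; simp [v2]

theorem psh_21 (f : ℕ → ℕ) (l : ℕ) : psh 1 f (v2 2 1) l
    = (if f 0 = l then 2 else 0) + (if f 1 = l then 1 else 0) := by
  rw [psh1]; simp [v2]

theorem key_d (f : ℕ → ℕ) (m12 : f 0 ≤ f 1) (m3 : f 1 ≤ 1) :
    ((psh 1 f (v2 0 3) 0 + psh 1 f (v2 0 3) 1 = 3 ∧ 1 ≤ psh 1 f (v2 0 3) 1) ↔
        (psh 1 f (v2 2 1) 0 + psh 1 f (v2 2 1) 1 = 3 ∧ 1 ≤ psh 1 f (v2 2 1) 1)) := by
  simp only [psh_03, psh_21]
  generalize f 0 = u1 at *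
  generalize f 1 = u2 at *
  interval_cases u2 <;> interval_cases u1 <;> decide

theorem ncd (hLNN : LnnStmt) (hGTB : GtbStmt) (hGTN : GtnStmt) (hGTS : GtsStmt) (hGTK : GtkStmt)
    (hGAA : GaaStmt) (hRGA : RgaStmt) (hWUB : WubStmt) (hISO : IsoStmt) (hFAA : FaaStmt) :
    NcdStmt := by
  intro β hA hO2 hO3
  by_contra hcon
  rw [not_or, not_or] at hcon
  obtain ⟨hO1, hs, hu⟩ := hcon
  have hth := hA.th
  have hi := hA.iso
  have hcl := hA.cl
  have hK := cen_of_cent hA.ce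
  have h12 : L1 β 1 (v2 1 2) (v2 0 3) := hO2
  obtain ⟨F0, F2, -, F4, -, -⟩ := hFAA β hcl
  -- pass to explicit vectors
  have hE : ∀ x z : ℕ → ℕ, L1 β 1 x z → L1 β 1 (v2 (x 0) (x 1)) (v2 (z 0) (z 1)) := by
    intro x z h
    have h1 := l1_push (bmap1 (a := 0) (b := 1) (k' := 1) (by omega) (by omega)) h
    rw [p01, p01] at h1
    exact h1
  -- a relation which changes the degree
  have hW : ∀ x x' : ℕ → ℕ, deg 1 x = 3 → L1 β 1 x x' → deg 1 x' ≠ 3 → L1 β 1 x (sg 0 3) := by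
    intro x x' hd h hne
    have h1 := (hWUB (FC.ofFIC β) hO2 hK 1 x x' (by omega) (by omega) h).1 0 (by omega)
    rw [hd] at h1
    exact h1
  -- `(0,3) ~ (3,0)` is excluded
  have h03 : ¬ L1 β 1 (v2 0 3) (v2 3 0) := by
    intro h
    apply hs
    refine F2 1 _ _ _ _ h ?_
    exact F0 1 (v2 3 0) (v2 1 1) 1 (by decide) (by decide) (le_refl 1) (by decide)
  -- relations which leave the last block
  have hU : ∀ x z : ℕ → ℕ, x 0 + x 1 = 3 → 1 ≤ x 1 → z 0 + z 1 = 3 → z 1 = 0 →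
      L1 β 1 x z → False := by
    intro x z hx hx1 hz hz1 h
    have h1 := hE x z h
    have e : z 0 = 3 := by omega
    rw [e, hz1] at h1
    have hcase : (x 0 = 2 ∧ x 1 = 1) ∨ (x 0 = 1 ∧ x 1 = 2) ∨ (x 0 = 0 ∧ x 1 = 3) := by omega
    rcases hcase with ⟨c0, c1⟩ | ⟨c0, c1⟩ | ⟨c0, c1⟩
    · rw [c0, c1] at h1
      exact hO3 (l1_symm h1)
    · rw [c0, c1] at h1
      exact h03 (l1_trans (l1_symm h12) h1)
    · rw [c0, c1] at h1
      exact h03 h1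
  -- the congruence `G1`
  have hG1 : β ≤ GT 1 Td1 := by
    refine hGTB β hth (nc2_of_iso3 hi) hcl 1 1 Td1 td1_ext td1_last ?_ ?_
    · intro a b a' b' hT ha hb
      refine ⟨?_, yd_iso hISO hth hi hT.2 hb⟩
      obtain ⟨⟨h0, h1⟩, -⟩ := hT
      have hda : deg 1 a = 3 := by rw [deg1]; omega
      have hd : deg 1 a' = 3 := by
        by_contra hd
        exact hU a (sg 0 3) (by omega) (by omega) (by simp [sg]) (by simp [sg])
          (hW a a' hda ha hd)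
      have hs' : a' 0 + a' 1 = 3 := by rw [← deg1]; exact hd
      have hR := hE a a' ha
      rw [h0, h1] at hR
      have hcase : (a' 0 = 3 ∧ a' 1 = 0) ∨ (a' 0 = 2 ∧ a' 1 = 1) ∨ (a' 0 = 1 ∧ a' 1 = 2) ∨
          (a' 0 = 0 ∧ a' 1 = 3) := by omega
      rcases hcase with ⟨c0, c1⟩ | ⟨c0, c1⟩ | ⟨c0, c1⟩ | ⟨c0, c1⟩
      · rw [c0, c1] at hR
        exact absurd (l1_symm hR) hO3
      · exact ⟨c0, c1⟩
      · rw [c0, c1] at hR
        exact absurd hR hO1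
      · rw [c0, c1] at hR
        exact absurd (l1_trans hR (l1_symm h12)) hO1
    · intro a b hT hBt
      have hl := td1_last a b hT
      obtain ⟨⟨h0, h1⟩, g0, g1⟩ := hT
      have h4 := F4 1 1 _ a b 1 (bmap1 (a := 0) (b := 1) (by omega) (by omega)) hl.1 hl.2.1
        (le_refl 1) hl.2.2.1 hl.2.2.2 hBt
      rw [p01, p01, h0, h1, g0, g1] at h4
      exact hu h4
  have hG2 : β ≤ GT 1 Td2 := by
    refine hGTB β hth (nc2_of_iso3 hi) hcl 1 1 Td2 td2_ext td2_last ?_ ?_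
    · intro a b a' b' hT ha hb
      obtain ⟨⟨h0, h1⟩, hy⟩ := hT
      have hda : deg 1 a = 3 := by rw [deg1]; omega
      have hd : deg 1 a' = 3 := by
        by_contra hd
        exact hU a (sg 0 3) h0 h1 (by simp [sg]) (by simp [sg]) (hW a a' hda ha hd)
      have hs' : a' 0 + a' 1 = 3 := by rw [← deg1]; exact hd
      refine ⟨⟨hs', ?_⟩, yd_iso hISO hth hi hy hb⟩
      by_contra hlt
      exact hU a a' h0 h1 hs' (by omega) ha
    · intro a b hT hBt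
      have hl := td2_last a b hT
      obtain ⟨⟨h0, h1⟩, g0, g1⟩ := hT
      have h4 := F4 1 1 _ a b 1 (bmap1 (a := 0) (b := 1) (by omega) (by omega)) hl.1 hl.2.1
        (le_refl 1) hl.2.2.1 hl.2.2.2 hBt
      rw [p01, p01, g0, g1] at h4
      have h4' : Bt β 1 (v2 (a 0) (a 1)) (v2 1 1) 1 := h4
      have hcase : (a 0 = 2 ∧ a 1 = 1) ∨ (a 0 = 1 ∧ a 1 = 2) ∨ (a 0 = 0 ∧ a 1 = 3) := by omega
      rcases hcase with ⟨c0, c1⟩ | ⟨c0, c1⟩ | ⟨c0, c1⟩
      · rw [c0, c1] at h4'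
        exact hu h4'
      · rw [c0, c1] at h4'
        exact hs (F2 1 _ _ _ _ (l1_symm h12) h4')
      · rw [c0, c1] at h4'
        exact hs h4'
  -- the exchange in `G1`
  have hBt1 : Bt (GT 1 Td1) 1 (v2 0 3) (v2 1 1) 1 := by
    refine hGTS 1 Td1 td1_ext td1_deg 1 _ _ (by decide) (by decide) ?_ 1
    intro f hf hT
    obtain ⟨⟨h0, h1⟩, -⟩ := hT
    rw [psh_03] at h0
    split_ifs at h0 <;> omega
  -- the type change in `G2`
  have hL2 : L1 (GT 1 Td2) 1 (v2 0 3) (v2 2 1) := by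
    refine hGTK 1 Td2 td2_ext td2_deg 1 _ _ (by decide) (by decide) (by decide)
      (by decide) ?_
    intro f hf b
    have key := key_d f (hf.mono 0 1 (by omega) (by omega)) (hf.le 1 (by omega))
    unfold Td2
    rw [key]
  have hfin := hLNN β hth (nc2_of_iso3 hi) (hGAA β hcl) (hRGA β hcl) hA.md _ _ hG1 hG2 1
    (v2 0 3) (v2 2 1) (v2 1 1) 1 (by decide) (by decide) (by decide) (le_refl 1)
    hBt1 hL2
  rcases hfin with h | h
  · exact hGTN 1 1 Td1 td1_ext td1_last (le_refl 1) _ _ ⟨⟨rfl, rfl⟩, rfl, rfl⟩ h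
  · exact hGTN 1 1 Td2 td2_ext td2_last (le_refl 1) _ _ ⟨⟨rfl, by decide⟩, rfl, rfl⟩ h

end Pool.Agent.MVO.H43
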