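import Pool.Agent.MVO.StmtsL

/-!
# MVO row WUC (unbalanced relations over `O3`)
-/

set_option autoImplicit false

namespace Pool.Agent.MVO.H43

open Pool.Agent.MVO

/-! ### vectors -/

theorem psh_const (k j : ℕ) (a : ℕ → ℕ) : psh k (fun _ => j) a = sg j (deg k a) := by
  funext l
  unfold psh sg deg
  by_cases h : l = j
  · subst h; simp
  · have h' : ¬ j = l := fun e => h e.symm
    simp [h, h']

theorem v2_left (m : ℕ) : v2 m 0 = sg 0 m := by
  funext j
  unfold v2 sg
  by_cases h : j = 0
  · simp [h]
  · simp [h]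

theorem v2_right (m : ℕ) : v2 0 m = sg 1 m := by
  funext j
  unfold v2 sg
  by_cases h : j = 0
  · subst h; simp
  · simp [h]

theorem deg_psh {k : ℕ} {f : ℕ → ℕ} (hf : ∀ i ≤ k, f i ≤ k) (a : ℕ → ℕ) :
    deg k (psh k f a) = deg k a := by
  unfold deg psh
  rw [Finset.sum_comm]
  refine Finset.sum_congr rfl fun i hi => ?_
  rw [Finset.sum_ite_eq]
  rw [if_pos]
  rw [Finset.mem_range] at hi ⊢
  have := hf i (by omega)
  omega

theorem deg_sg {k j : ℕ} (hj : j ≤ k) (m : ℕ) : deg k (sg j m) = m := by
  unfold deg sg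
  rw [Finset.sum_ite_eq']
  rw [if_pos (Finset.mem_range.mpr (by omega))]

theorem deg_add (k : ℕ) (a b : ℕ → ℕ) : deg k (fun j => a j + b j) = deg k a + deg k b := by
  unfold deg
  rw [Finset.sum_add_distrib]

/-! ### profiles -/

theorem mem_pr {k : ℕ} {a : ℕ → ℕ} {j : ℕ} :
    j ∈ pr k a ↔ j ≤ k ∧ a j ≠ 0 ∧ ∀ i < j, a i ≤ 1 := by
  unfold pr sp
  rw [Finset.mem_filter, Finset.mem_filter, Finset.mem_range]
  constructor
  · rintro ⟨⟨h1, h2⟩, h3⟩
    exact ⟨by omega, h2, h3⟩
  · rintro ⟨h1, h2, h3⟩
    exact ⟨⟨by omega, h2⟩, h3⟩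

theorem pr_empty {k : ℕ} {a : ℕ → ℕ} (h : ¬ (pr k a).Nonempty) : ∀ j ≤ k, a j = 0 := by
  intro j
  induction j using Nat.strong_induction_on with
  | _ j ih =>
    intro hj
    by_contra hne
    apply h
    refine ⟨j, mem_pr.mpr ⟨hj, hne, fun i hi => ?_⟩⟩
    rw [ih i hi (by omega)]
    omega

theorem deg_zero {k : ℕ} {a : ℕ → ℕ} (h : ∀ j ≤ k, a j = 0) : deg k a = 0 := by
  unfold deg
  refine Finset.sum_eq_zero fun j hj => h j ?_
  rw [Finset.mem_range] at hj
  omega

/-- the retraction onto a finite set -/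
theorem exists_ret (P : Finset ℕ) (hP : P.Nonempty) :
    ∃ f : ℕ → ℕ, Monotone f ∧ (∀ j, f j ∈ P) ∧ ∀ j ∈ P, f j = j := by
  refine ⟨fun j => max (P.min' hP) ((P.filter (fun i => i ≤ j)).sup id), ?_, ?_, ?_⟩
  · intro i j hij
    refine max_le_max (le_refl _) (Finset.sup_mono ?_)
    intro x hx
    rw [Finset.mem_filter] at hx ⊢
    exact ⟨hx.1, le_trans hx.2 hij⟩
  · intro j
    by_cases h : (P.filter (fun i => i ≤ j)).Nonempty
    · obtain ⟨x, hx, hxs⟩ := Finset.exists_mem_eq_sup _ h (id : ℕ → ℕ)
      have hxP : x ∈ P := (Finset.mem_filter.mp hx).1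
      have h1 : P.min' hP ≤ x := Finset.min'_le _ _ hxP
      simp only [hxs, id]
      rw [max_eq_right h1]
      exact hxP
    · rw [Finset.not_nonempty_iff_eq_empty] at h
      simp only [h, Finset.sup_empty]
      rw [max_eq_left bot_le]
      exact Finset.min'_mem _ _
  · intro j hj
    have h1 : (P.filter (fun i => i ≤ j)).sup id = j := by
      apply le_antisymm
      · refine Finset.sup_le fun x hx => ?_
        exact (Finset.mem_filter.mp hx).2
      · exact Finset.le_sup (f := id) (Finset.mem_filter.mpr ⟨hj, le_refl j⟩)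
    simp only [h1]
    exact max_eq_right (Finset.min'_le _ _ hj)

/-- the retraction onto the profile preserves the profile -/
theorem pr_ret {k : ℕ} {a : ℕ → ℕ} {f : ℕ → ℕ} (hP : (pr k a).Nonempty) (hf : Monotone f)
    (hm : ∀ j, f j ∈ pr k a) (hid : ∀ j ∈ pr k a, f j = j) : pr k (psh k f a) = pr k a := by
  obtain ⟨s, hs, hmax⟩ := Finset.exists_max_image (pr k a) id hP
  simp only [id] at hmax
  have hs' := mem_pr.mp hs
  -- the image of an element of the support
  have himg : ∀ i ≤ k, a i ≠ 0 → f i = i ∨ f i = s := by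
    intro i hi hne
    by_cases h : i ∈ pr k a
    · exact Or.inl (hid i h)
    · right
      have hsi : s ≤ i := by
        by_contra hlt
        apply h
        exact mem_pr.mpr ⟨hi, hne, fun j hj => hs'.2.2 j (by omega)⟩
      have h1 : f s ≤ f i := hf hsi
      rw [hid s hs] at h1
      exact le_antisymm (hmax _ (hm i)) h1
  ext l
  rw [mem_pr]
  constructor
  · rintro ⟨hl, hne, -⟩
    by_contra hnot
    apply hne
    unfold psh
    refine Finset.sum_eq_zero fun i _ => ?_
    rw [if_neg]
    intro h
    exact hnot (h ▸ hm i)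
  · intro hl
    have hl' := mem_pr.mp hl
    refine ⟨hl'.1, ?_, ?_⟩
    · unfold psh
      have h1 : a l ≤ ∑ i ∈ Finset.range (k + 1), if f i = l then a i else 0 := by
        have h2 := Finset.single_le_sum (f := fun i => if f i = l then a i else 0)
          (fun i _ => Nat.zero_le _) (Finset.mem_range.mpr (by omega : l < k + 1))
        simpa [hid l hl] using h2
      have := hl'.2.1
      omega
    · intro i hi
      have his : i < s := lt_of_lt_of_le hi (hmax l hl)
      unfold psh
      have h1 : (∑ x ∈ Finset.range (k + 1), if f x = i then a x else 0)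
          ≤ ∑ x ∈ Finset.range (k + 1), if x = i then a i else 0 := by
        refine Finset.sum_le_sum fun x hx => ?_
        rw [Finset.mem_range] at hx
        by_cases h : f x = i
        · rw [if_pos h]
          by_cases hx0 : a x = 0
          · rw [hx0]; exact Nat.zero_le _
          · rcases himg x (by omega) hx0 with h2 | h2
            · rw [h2] at h
              rw [if_pos h, h]
            · omega
        · rw [if_neg h]; exact Nat.zero_le _
      rw [Finset.sum_ite_eq'] at h1
      split_ifs at h1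
      · exact le_trans h1 (hl'.2.2 i hi)
      · omega

theorem pr_add_max {k : ℕ} {a : ℕ → ℕ} {s : ℕ} (hs : s ∈ pr k a) (hmax : ∀ j ∈ pr k a, j ≤ s)
    (m : ℕ) : pr k (fun j => a j + sg s m j) = pr k a := by
  ext l
  rw [mem_pr, mem_pr]
  have hs' := mem_pr.mp hs
  constructor
  · rintro ⟨h1, h2, h3⟩
    by_cases hls : l = s
    · rw [hls]; exact hs'
    · refine ⟨h1, ?_, fun i hi => ?_⟩
      · have : sg s m l = 0 := by unfold sg; rw [if_neg hls]
        rw [this] at h2; simpa using h2
      · have := h3 i hi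
        omega
  · rintro ⟨h1, h2, h3⟩
    refine ⟨h1, by omega, fun i hi => ?_⟩
    have hle : l ≤ s := hmax l (mem_pr.mpr ⟨h1, h2, h3⟩)
    have h0 : sg s m i = 0 := by unfold sg; rw [if_neg (by omega)]
    simp only [h0, Nat.add_zero]
    exact h3 i hi

theorem pr_block_zero {k : ℕ} {a : ℕ → ℕ} (h : 2 ≤ a 0) : pr k a = {0} := by
  ext l
  rw [mem_pr, Finset.mem_singleton]
  constructor
  · rintro ⟨-, -, h3⟩
    by_contra hl
    have := h3 0 (by omega)
    omega
  · rintro rfl
    exact ⟨Nat.zero_le _, by omega, fun i hi => by omega⟩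

/-! ### functorial congruences -/

theorem pow_rel (R : FC) {k : ℕ} {a b : ℕ → ℕ} (h : R.R k a b) (k' j : ℕ) (hj : j ≤ k') :
    R.R k' (sg j (deg k a)) (sg j (deg k b)) := by
  have hB : BMap k k' (fun _ => j) := ⟨fun _ _ _ _ => le_refl _, fun _ _ => hj⟩
  have := R.push k' _ hB h
  rw [psh_const, psh_const] at this
  exact this

theorem pow_iter (R : FC) {δ p : ℕ} (h0 : ∀ k j, j ≤ k → R.R k (sg j δ) (sg j (δ + p)))
    {m : ℕ} (hm : δ ≤ m) (n k j : ℕ) (hj : j ≤ k) : R.R k (sg j m) (sg j (m + n * p)) := by
  induction n with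
  | zero => simpa using R.refl k (sg j m)
  | succ n ih =>
    refine R.trans ih ?_
    have h1 := R.add (sg j (m + n * p - δ)) (h0 k j hj)
    refine R.ext ?_ ?_ h1
    · intro i _
      unfold sg
      by_cases h : i = j
      · simp only [h, if_true]; omega
      · simp only [h, if_false]
    · intro i _
      unfold sg
      by_cases h : i = j
      · simp only [h, if_true]
        have : (n + 1) * p = n * p + p := by ring
        omega
      · simp only [h, if_false]

theorem pow_cen (R : FC) {δ p K : ℕ} (hp : 1 ≤ p)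
    (hK : ∀ m, K ≤ m → R.R 1 (v2 m 0) (v2 0 m))
    (h0 : ∀ k j, j ≤ k → R.R k (sg j δ) (sg j (δ + p))) {m : ℕ} (hm : δ ≤ m) :
    R.R 1 (sg 0 m) (sg 1 m) := by
  have h1 := pow_iter R h0 hm K 1 0 (by omega)
  have h2 := pow_iter R h0 hm K 1 1 (by omega)
  have h3 : K ≤ m + K * p := by nlinarith
  have h4 := hK _ h3
  rw [v2_left, v2_right] at h4
  exact R.trans h1 (R.trans h4 (R.symm h2))

theorem pow_move (R : FC) {m : ℕ} (h : R.R 1 (sg 0 m) (sg 1 m)) {k i j : ℕ} (hi : i ≤ k)
    (hj : j ≤ k) : R.R k (sg i m) (sg j m) := by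
  have key : ∀ i j, i ≤ j → j ≤ k → R.R k (sg i m) (sg j m) := by
    intro i j hij hj
    have hB : BMap 1 k (fun x => if x = 0 then i else j) := by
      refine ⟨fun x y hxy hy => ?_, fun x _ => ?_⟩
      · by_cases hx : x = 0
        · by_cases hy0 : y = 0
          · simp [hx, hy0]
          · simp [hx, hy0, hij]
        · have hy0 : y ≠ 0 := by omega
          simp [hx, hy0]
      · by_cases hx : x = 0
        · simp only [hx, if_true]; omega
        · simp only [hx, if_false]; exact hj
    have h1 := R.push k _ hB h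
    refine R.ext ?_ ?_ h1
    · intro l _
      unfold psh
      rw [Finset.sum_range_succ, Finset.sum_range_one]
      unfold sg
      by_cases hl : l = i
      · subst hl; simp
      · have hl' : ¬ i = l := fun e => hl e.symm
        simp [hl, hl']
    · intro l _
      unfold psh
      rw [Finset.sum_range_succ, Finset.sum_range_one]
      unfold sg
      by_cases hl : l = j
      · subst hl; simp
      · have hl' : ¬ j = l := fun e => hl e.symm
        simp [hl, hl']
  rcases le_total i j with hij | hij
  · exact key i j hij hj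
  · exact R.symm (key j i hij hi)

theorem main_claim (hOCA : OcaStmt) (R : FC) (hO : O3 R) {δ p K : ℕ} (hp : 1 ≤ p)
    (hK : ∀ m, K ≤ m → R.R 1 (v2 m 0) (v2 0 m))
    (h0 : ∀ k j, j ≤ k → R.R k (sg j δ) (sg j (δ + p))) (k : ℕ) :
    ∀ (N : ℕ) (c c' : ℕ → ℕ), (pr k c).card ≤ N → deg k c = δ → deg k c' = δ + p →
      R.R k c c' → R.R k c (sg 0 δ) := by
  intro N
  induction N with
  | zero =>
    intro c c' hc hd _ _
    have hne : ¬ (pr k c).Nonempty := by
      rw [Finset.not_nonempty_iff_eq_empty]
      exact Finset.card_eq_zero.mp (by omega)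
    have hz := pr_empty hne
    have hδ : δ = 0 := by rw [← hd]; exact deg_zero hz
    refine R.ext (a := c) (b := c) (fun j _ => rfl) (fun j hj => ?_) (R.refl k c)
    rw [hz j hj, hδ]
    unfold sg
    split_ifs <;> rfl
  | succ N ih =>
    intro c c' hc hd hd' hR
    by_cases hne : (pr k c).Nonempty
    swap
    · exact ih c c' (by rw [Finset.not_nonempty_iff_eq_empty] at hne; rw [hne]; simp) hd hd' hR
    obtain ⟨f, hf1, hf2, hf3⟩ := exists_ret (pr k c) hne
    have hfk : ∀ j, f j ≤ k := fun j => (mem_pr.mp (hf2 j)).1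
    have hfB : BMap k k f := ⟨fun i j hij _ => hf1 hij, fun i _ => hfk i⟩
    have hpush := R.push k f hfB hR
    have hcc : R.R k c (psh k f c) :=
      hOCA R k c (psh k f c) hO (deg_psh (fun i _ => hfk i) c).symm
        (pr_ret hne hf1 hf2 hf3).symm
    set c1 := psh k f c' with hc1
    have hc1R : R.R k c c1 := R.trans hcc hpush
    have hc1d : deg k c1 = δ + p := by rw [hc1, deg_psh (fun i _ => hfk i), hd']
    have hsub : pr k c1 ⊆ pr k c := by
      intro l hl
      have hl' := mem_pr.mp hl
      by_contra hnot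
      apply hl'.2.1
      rw [hc1]
      unfold psh
      refine Finset.sum_eq_zero fun i _ => ?_
      rw [if_neg]
      intro h
      exact hnot (h ▸ hf2 i)
    have hne1 : (pr k c1).Nonempty := by
      by_contra hno
      have := deg_zero (pr_empty hno)
      omega
    by_cases heq : pr k c1 = pr k c
    · -- equal profiles
      obtain ⟨s, hs, hmax⟩ := Finset.exists_max_image (pr k c) id hne
      simp only [id] at hmax
      have hsk : s ≤ k := (mem_pr.mp hs).1
      have h1 : R.R k c (fun j => c j + sg s p j) := by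
        refine R.trans hc1R (hOCA R k c1 _ hO ?_ ?_)
        · rw [hc1d, deg_add, hd, deg_sg hsk]
        · rw [pr_add_max hs hmax, heq]
      have h2 : ∀ n : ℕ, R.R k c (fun j => c j + sg s (n * p) j) := by
        intro n
        induction n with
        | zero =>
          refine R.ext (a := c) (b := c) (fun j _ => rfl) (fun j _ => ?_) (R.refl k c)
          unfold sg; simp
        | succ n ihn =>
          refine R.trans ihn ?_
          have h3 := R.add (sg s (n * p)) h1
          refine R.ext (fun j _ => rfl) (fun j _ => ?_) h3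
          unfold sg
          by_cases h : j = s
          · simp only [h, if_true]; ring
          · simp only [h, if_false]
      have hbig : δ ≤ (δ + 2) * p := by nlinarith
      have h2big : 2 ≤ (δ + 2) * p := by nlinarith
      have h3 := h2 (δ + 2)
      have h4 : R.R k (sg s ((δ + 2) * p)) (sg 0 ((δ + 2) * p)) :=
        pow_move R (pow_cen R hp hK h0 hbig) hsk (Nat.zero_le _)
      have h5 := R.add c h4
      have h6 : R.R k (fun j => c j + sg s ((δ + 2) * p) j)
          (fun j => c j + sg 0 ((δ + 2) * p) j) :=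
        R.ext (fun j _ => by ring) (fun j _ => by ring) h5
      have h7 : R.R k (fun j => c j + sg 0 ((δ + 2) * p) j) (sg 0 (δ + (δ + 2) * p)) := by
        refine hOCA R k _ _ hO ?_ ?_
        · rw [deg_add, hd, deg_sg (Nat.zero_le _), deg_sg (Nat.zero_le _)]
        · rw [pr_block_zero, pr_block_zero]
          · unfold sg; simp only [if_true]; omega
          · unfold sg; simp only [if_true]; omega
      have h8 := pow_iter R h0 (le_refl δ) (δ + 2) k 0 (Nat.zero_le _)
      exact R.trans h3 (R.trans h6 (R.trans h7 (R.symm h8)))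
    · -- smaller profile
      obtain ⟨g, hg1, hg2, hg3⟩ := exists_ret (pr k c1) hne1
      have hgk : ∀ j, g j ≤ k := fun j => (mem_pr.mp (hg2 j)).1
      have hgB : BMap k k g := ⟨fun i j hij _ => hg1 hij, fun i _ => hgk i⟩
      have hpush2 := R.push k g hgB hc1R
      have hc1c1 : R.R k c1 (psh k g c1) :=
        hOCA R k c1 (psh k g c1) hO (deg_psh (fun i _ => hgk i) c1).symm
          (pr_ret hne1 hg1 hg2 hg3).symm
      have h1 : R.R k (psh k g c) c1 := R.trans hpush2 (R.symm hc1c1)
      have hsub2 : pr k (psh k g c) ⊆ pr k c1 := by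
        intro l hl
        have hl' := mem_pr.mp hl
        by_contra hnot
        apply hl'.2.1
        unfold psh
        refine Finset.sum_eq_zero fun i _ => ?_
        rw [if_neg]
        intro h
        exact hnot (h ▸ hg2 i)
      have hlt : (pr k c1).card < (pr k c).card :=
        Finset.card_lt_card (Finset.ssubset_iff_subset_ne.mpr ⟨hsub, heq⟩)
      have h2 : (pr k (psh k g c)).card ≤ N := by
        have := Finset.card_le_card hsub2
        omega
      have h3 := ih (psh k g c) c1 h2 (by rw [deg_psh (fun i _ => hgk i), hd]) hc1d h1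
      exact R.trans hc1R (R.trans (R.symm h1) h3)

theorem wuc (hOCA : OcaStmt) : WucStmt := by
  intro R hO hC k a b _ hab hR
  obtain ⟨K, hK⟩ := hC
  rcases Nat.lt_or_gt_of_ne hab with hlt | hlt
  · obtain ⟨p, hp⟩ := Nat.exists_eq_add_of_lt hlt
    have hp' : deg k b = deg k a + (p + 1) := by omega
    have h0 : ∀ k' j, j ≤ k' → R.R k' (sg j (deg k a)) (sg j (deg k a + (p + 1))) := by
      intro k' j hj
      have := pow_rel R hR k' j hj
      rwa [hp'] at this
    have hcen := pow_cen R (by omega : 1 ≤ p + 1) hK h0 (le_refl (deg k a))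
    have hm := main_claim hOCA R hO (by omega : 1 ≤ p + 1) hK h0 k _ a b (le_refl _) rfl hp' hR
    refine ⟨fun j hj => R.trans hm (pow_move R hcen (Nat.zero_le _) hj), ?_⟩
    rw [v2_left, v2_right]
    exact hcen
  · obtain ⟨p, hp⟩ := Nat.exists_eq_add_of_lt hlt
    have hp' : deg k a = deg k b + (p + 1) := by omega
    have h0 : ∀ k' j, j ≤ k' → R.R k' (sg j (deg k b)) (sg j (deg k b + (p + 1))) := by
      intro k' j hj
      have := pow_rel R (R.symm hR) k' j hj
      rwa [hp'] at this
    have hcen := pow_cen R (by omega : 1 ≤ p + 1) hK h0 (by omega : deg k b ≤ deg k a)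
    have hm := main_claim hOCA R hO (by omega : 1 ≤ p + 1) hK h0 k _ b a (le_refl _) rfl hp'
      (R.symm hR)
    have h1 : R.R k a (sg 0 (deg k a)) := by
      refine R.trans hR (R.trans hm ?_)
      have := h0 k 0 (Nat.zero_le _)
      rwa [← hp'] at this
    refine ⟨fun j hj => R.trans h1 (pow_move R hcen (Nat.zero_le _) hj), ?_⟩
    rw [v2_left, v2_right]
    exact hcen

end Pool.Agent.MVO.H43
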