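import Pool.Agent.MVO.StmtsD

/-!
# MVO row ZFR (letters which share another block commute in class Cc)
-/

set_option autoImplicit false

namespace Pool.Agent.MVO.H43

open Pool.Agent.MVO Pool.Agent.Helper14_MV Pool.Agent.Helper2_MV

/-- one letter 0 moves over a power of 1 -/
theorem move_one {β : FIC} {p q : List ℕ}
    (hex : ∀ s s' : List ℕ, RR β ((p ++ s) ++ 0 :: 1 :: (s' ++ q)) ((p ++ s) ++ 1 :: 0 :: (s' ++ q)))
    (B : ℕ) : ∀ s s' : List ℕ, RR β (p ++ s ++ 0 :: (List.replicate B 1 ++ (s' ++ q)))
      (p ++ s ++ (List.replicate B 1 ++ 0 :: (s' ++ q))) := by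
  induction B with
  | zero => intro s s'; exact RR.refl _
  | succ B ih =>
    intro s s'
    have h1 := hex s (List.replicate B 1 ++ s')
    have h2 := ih (s ++ [1]) s'
    have e1 : p ++ s ++ 0 :: (List.replicate (B + 1) 1 ++ (s' ++ q))
        = (p ++ s) ++ 0 :: 1 :: ((List.replicate B 1 ++ s') ++ q) := by
      rw [List.replicate_succ]; simp
    have e2 : (p ++ s) ++ 1 :: 0 :: ((List.replicate B 1 ++ s') ++ q)
        = p ++ (s ++ [1]) ++ 0 :: (List.replicate B 1 ++ (s' ++ q)) := by simp
    have e3 : p ++ (s ++ [1]) ++ (List.replicate B 1 ++ 0 :: (s' ++ q))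
        = p ++ s ++ (List.replicate (B + 1) 1 ++ 0 :: (s' ++ q)) := by
      rw [List.replicate_succ]; simp
    rw [e1, ← e3]
    rw [e2] at h1
    exact β.trans h1 h2

/-- a power of 0 moves over a power of 1 -/
theorem move_all {β : FIC} {p q : List ℕ}
    (hex : ∀ s s' : List ℕ, RR β ((p ++ s) ++ 0 :: 1 :: (s' ++ q)) ((p ++ s) ++ 1 :: 0 :: (s' ++ q)))
    (A B : ℕ) : ∀ s s' : List ℕ,
      RR β (p ++ s ++ (List.replicate A 0 ++ (List.replicate B 1 ++ (s' ++ q))))
      (p ++ s ++ (List.replicate B 1 ++ (List.replicate A 0 ++ (s' ++ q)))) := by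
  induction A with
  | zero => intro s s'; simpa using RR.refl _
  | succ A ih =>
    intro s s'
    have h1 := ih (s ++ [0]) s'
    have h2 := move_one hex B s (List.replicate A 0 ++ s')
    have e1 : p ++ s ++ (List.replicate (A + 1) 0 ++ (List.replicate B 1 ++ (s' ++ q)))
        = p ++ (s ++ [0]) ++ (List.replicate A 0 ++ (List.replicate B 1 ++ (s' ++ q))) := by
      rw [List.replicate_succ]; simp
    have e2 : p ++ (s ++ [0]) ++ (List.replicate B 1 ++ (List.replicate A 0 ++ (s' ++ q)))
        = p ++ s ++ 0 :: (List.replicate B 1 ++ ((List.replicate A 0 ++ s') ++ q)) := by simp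
    have e3 : p ++ s ++ (List.replicate B 1 ++ 0 :: ((List.replicate A 0 ++ s') ++ q))
        = p ++ s ++ (List.replicate B 1 ++ (List.replicate (A + 1) 0 ++ (s' ++ q))) := by
      rw [List.replicate_succ]; simp
    rw [e1, ← e3]
    rw [e2] at h1
    exact β.trans h1 h2

theorem zfr (hSGC : SgcStmt) : ZfrStmt := by
  intro β hcc k a b i j hi hj hij hai hbi haj hbj e
  -- the blocks
  set B : ℕ → List ℕ := fun j => bl (a j) (b j) (e j) with hB
  set B' : ℕ → List ℕ := fun j => bl (a j) (b j) (flp e i j) with hB'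
  have hBB : ∀ l, l ≠ i → B l = B' l := by
    intro l hl
    simp only [hB, hB', flp, if_neg hl]
  have hpre : pre B i = pre B' i := pre_congr fun l hl => hBB l (by omega)
  have hsuf : suf B i (k - i) = suf B' i (k - i) := suf_congr fun l h1 _ => hBB l (by omega)
  have hw : w2 k a b e = pre B i ++ B i ++ suf B i (k - i) := asm_split hi B
  have hw' : w2 k a b (flp e i) = pre B i ++ B' i ++ suf B i (k - i) := by
    rw [hpre, hsuf]
    exact asm_split hi B'
  -- an adjacent pair in block `j`
  obtain ⟨A1, ha1⟩ := Nat.exists_eq_add_of_le haj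
  obtain ⟨C1, hb1⟩ := Nat.exists_eq_add_of_le hbj
  have hpair : (∃ u v, B j = u ++ 0 :: 1 :: v) ∨ (∃ u v, B j = u ++ 1 :: 0 :: v) := by
    have e0 : List.replicate (a j) 0 = List.replicate A1 0 ++ [0] ∧
        List.replicate (a j) 0 = 0 :: List.replicate A1 0 := by
      rw [ha1]
      refine ⟨?_, ?_⟩
      · rw [Nat.add_comm, List.replicate_succ']
      · rw [Nat.add_comm, List.replicate_succ]
    have e1 : List.replicate (b j) 1 = List.replicate C1 1 ++ [1] ∧
        List.replicate (b j) 1 = 1 :: List.replicate C1 1 := by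
      rw [hb1]
      refine ⟨?_, ?_⟩
      · rw [Nat.add_comm, List.replicate_succ']
      · rw [Nat.add_comm, List.replicate_succ]
    by_cases he : e j = true
    · right
      refine ⟨List.replicate C1 1, List.replicate A1 0, ?_⟩
      simp only [hB, bl, if_pos he]
      rw [e1.1, e0.2]
      simp
    · left
      refine ⟨List.replicate A1 0, List.replicate C1 1, ?_⟩
      simp only [hB, bl, if_neg he]
      rw [e0.1, e1.2]
      simp
  have hex : ∀ s s' : List ℕ, RR β ((pre B i ++ s) ++ 0 :: 1 :: (s' ++ suf B i (k - i)))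
      ((pre B i ++ s) ++ 1 :: 0 :: (s' ++ suf B i (k - i))) := by
    intro s s'
    obtain ⟨-, h2, h3⟩ := hSGC β hcc (pre B i ++ s) (s' ++ suf B i (k - i)) 0 1
    rcases Nat.lt_or_gt_of_ne hij with hlt | hlt
    · -- `i < j`
      apply h2
      obtain ⟨R, R', hR⟩ := suf_split (B := B) hlt (by omega : j ≤ i + (k - i))
      rcases hpair with ⟨u, v, huv⟩ | ⟨u, v, huv⟩
      · left
        refine ⟨s' ++ R ++ u, [], v ++ R', ?_, by simp⟩
        rw [hR, huv]; simp
      · right
        refine ⟨s' ++ R ++ u, [], v ++ R', ?_, by simp⟩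
        rw [hR, huv]; simp
    · -- `j < i`
      apply h3
      obtain ⟨R, hR⟩ := pre_split (B := B) hlt
      rcases hpair with ⟨u, v, huv⟩ | ⟨u, v, huv⟩
      · left
        refine ⟨pre B j ++ u, [], v ++ R ++ s, ?_, by simp⟩
        rw [hR, huv]; simp
      · right
        refine ⟨pre B j ++ u, [], v ++ R ++ s, ?_, by simp⟩
        rw [hR, huv]; simp
  have hmain := move_all hex (a i) (b i) [] []
  simp only [List.append_nil, List.nil_append] at hmain
  unfold Ex
  rw [hw, hw']
  by_cases he : e i = true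
  · have e1 : B i = List.replicate (b i) 1 ++ List.replicate (a i) 0 := by
      simp only [hB, bl, if_pos he]
    have e2 : B' i = List.replicate (a i) 0 ++ List.replicate (b i) 1 := by
      simp [hB', bl, flp, he]
    rw [e1, e2]
    have := RR.symm hmain
    simpa only [List.append_assoc] using this
  · have e1 : B i = List.replicate (a i) 0 ++ List.replicate (b i) 1 := by
      simp only [hB, bl, if_neg he]
    have e2 : B' i = List.replicate (b i) 1 ++ List.replicate (a i) 0 := by
      simp [hB', bl, flp, he]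
    rw [e1, e2]
    simpa only [List.append_assoc] using hmain

end Pool.Agent.MVO.H43
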