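import Pool.Agent.Helper43_MVO.NCommon

/-!
# MVO row NCC (third clause of class a over `O1`)
-/

set_option autoImplicit false

namespace Pool.Agent.MVO.H43

open Pool.Agent.MVO Pool.Agent.Helper14_MV Pool.Agent.Helper2_MV

/-- the type of the second letter -/
def Yc (y : ℕ → ℕ) : Prop := y 0 = 0 ∧ y 1 = 1 ∧ y 2 = 1

/-- the first set of pairs -/
def Tc1 (x y : ℕ → ℕ) : Prop := (x 0 = 1 ∧ x 1 = 1 ∧ x 2 = 1) ∧ Yc y

/-- the second set of pairs -/
def Tc2 (β : FIC) (x y : ℕ → ℕ) : Prop :=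
  Yc y ∧ x 0 + x 1 + x 2 = 3 ∧ 1 ≤ x 2 ∧ (O2 (FC.ofFIC β) ∨ 1 ≤ x 0)

theorem tc1_ext : TExt 2 Tc1 := by
  intro a a' b b' ha hb h
  obtain ⟨⟨h0, h1, h2⟩, g0, g1, g2⟩ := h
  have e0 := ha 0 (by omega); have e1 := ha 1 (by omega); have e2 := ha 2 (by omega)
  have f0 := hb 0 (by omega); have f1 := hb 1 (by omega); have f2 := hb 2 (by omega)
  exact ⟨⟨by omega, by omega, by omega⟩, by omega, by omega, by omega⟩

theorem tc2_ext (β : FIC) : TExt 2 (Tc2 β) := by
  intro a a' b b' ha hb h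
  obtain ⟨⟨g0, g1, g2⟩, h1, h2, h3⟩ := h
  have e0 := ha 0 (by omega); have e1 := ha 1 (by omega); have e2 := ha 2 (by omega)
  have f0 := hb 0 (by omega); have f1 := hb 1 (by omega); have f2 := hb 2 (by omega)
  refine ⟨⟨by omega, by omega, by omega⟩, by omega, by omega, ?_⟩
  rcases h3 with h3 | h3
  · exact Or.inl h3
  · exact Or.inr (by omega)

theorem yc_deg {y : ℕ → ℕ} (h : Yc y) : deg 2 y = 2 ∧ (sp 2 y).max = ((2 : ℕ) : WithBot ℕ) := by
  obtain ⟨g0, g1, g2⟩ := h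
  refine ⟨by rw [deg2]; omega, sp_max (by omega)⟩

theorem tc1_last : TLast 2 2 Tc1 := by
  intro a b h
  obtain ⟨⟨h0, h1, h2⟩, hy⟩ := h
  obtain ⟨hd, hm⟩ := yc_deg hy
  exact ⟨by rw [deg2]; omega, by omega, sp_max (by omega), hm⟩

theorem tc2_last (β : FIC) : TLast 2 2 (Tc2 β) := by
  intro a b h
  obtain ⟨hy, h1, h2, h3⟩ := h
  obtain ⟨hd, hm⟩ := yc_deg hy
  exact ⟨by rw [deg2]; omega, by omega, sp_max (by omega), hm⟩

theorem tc1_deg : TDeg 2 Tc1 := by
  intro a b h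
  obtain ⟨⟨h0, h1, h2⟩, hy⟩ := h
  exact ⟨by rw [deg2]; omega, (yc_deg hy).1⟩

theorem tc2_deg (β : FIC) : TDeg 2 (Tc2 β) := by
  intro a b h
  obtain ⟨hy, h1, h2, h3⟩ := h
  exact ⟨by rw [deg2]; omega, (yc_deg hy).1⟩

theorem yc_iso (hISO : IsoStmt) {β : FIC} (hth : β ≤ thC3) (hi : Iso3 β) {y y' : ℕ → ℕ}
    (hy : Yc y) (h : L1 β 2 y y') : Yc y' := by
  have hy' := hy
  obtain ⟨g0, g1, g2⟩ := hy
  have h1 := hISO β hth hi 2 y y' (yc_deg hy').1 (by
    intro j hj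
    interval_cases j <;> omega) h
  have e0 := h1 0 (by omega); have e1 := h1 1 (by omega); have e2 := h1 2 (by omega)
  exact ⟨by omega, by omega, by omega⟩

theorem p012 (x : ℕ → ℕ) : psh 2 (fl [0, 1, 2]) x = v3 (x 0) (x 1) (x 2) := by
  funext l
  rw [psh2]
  rcases l with _ | _ | _ | l <;> simp [fl, v3]

theorem psh_201 (f : ℕ → ℕ) (l : ℕ) : psh 2 f (v3 2 0 1) l
    = (if f 0 = l then 2 else 0) + (if f 2 = l then 1 else 0) := by
  rw [psh2]; simp [v3]

theorem psh_111 (f : ℕ → ℕ) (l : ℕ) : psh 2 f (v3 1 1 1) l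
    = (if f 0 = l then 1 else 0) + (if f 1 = l then 1 else 0) + (if f 2 = l then 1 else 0) := by
  rw [psh2]; simp [v3]

theorem no_psh_c (f : ℕ → ℕ) (h1 : psh 2 f (v3 2 0 1) 0 = 1) (h2 : psh 2 f (v3 2 0 1) 1 = 1) :
    False := by
  rw [psh_201] at h1 h2
  have a1 : f 2 = 0 := by
    by_contra h
    rw [if_neg h] at h1
    split_ifs at h1 <;> omega
  rw [a1] at h2
  rw [if_neg (by omega : ¬ (0 : ℕ) = 1)] at h2
  split_ifs at h2 <;> omega

theorem key_c (f : ℕ → ℕ) (m12 : f 0 ≤ f 1) (m23 : f 1 ≤ f 2) (m3 : f 2 ≤ 2) :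
    ((psh 2 f (v3 2 0 1) 0 + psh 2 f (v3 2 0 1) 1 + psh 2 f (v3 2 0 1) 2 = 3) ↔
        (psh 2 f (v3 1 1 1) 0 + psh 2 f (v3 1 1 1) 1 + psh 2 f (v3 1 1 1) 2 = 3)) ∧
        ((1 ≤ psh 2 f (v3 2 0 1) 2) ↔ (1 ≤ psh 2 f (v3 1 1 1) 2)) ∧
        ((1 ≤ psh 2 f (v3 2 0 1) 2) → ((1 ≤ psh 2 f (v3 2 0 1) 0) ↔
          (1 ≤ psh 2 f (v3 1 1 1) 0))) := by
  simp only [psh_201, psh_111]
  generalize f 0 = u1 at *
  generalize f 1 = u2 at *
  generalize f 2 = u3 at *
  interval_cases u3 <;> interval_cases u2 <;> interval_cases u1 <;> decide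

theorem ncc (hLNN : LnnStmt) (hGTB : GtbStmt) (hGTN : GtnStmt) (hGTS : GtsStmt) (hGTK : GtkStmt)
    (hGAA : GaaStmt) (hRGA : RgaStmt) (hWUA : WuaStmt) (_hOAA : OaaStmt) (hOAR : OarStmt)
    (hISO : IsoStmt) (hFAA : FaaStmt) : NccStmt := by
  intro β hA hO1 hO3
  by_contra hcon
  rw [not_or, not_or] at hcon
  obtain ⟨hII, hg2, hh2⟩ := hcon
  have hth := hA.th
  have hi := hA.iso
  have hcl := hA.cl
  have hK := cen_of_cent hA.ce
  have h21 : L1 β 1 (v2 2 1) (v2 1 2) := hO1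
  obtain ⟨-, F2, -, F4, -, -⟩ := hFAA β hcl
  -- a relation which changes the degree
  have hW : ∀ x x' : ℕ → ℕ, deg 2 x = 3 → L1 β 2 x x' → deg 2 x' ≠ 3 → L1 β 2 x (sg 0 3) := by
    intro x x' hd h hne
    have h1 := (hWUA (FC.ofFIC β) hO1 hK 2 x x' (by omega) (by omega) h).1 0 (by omega)
    rw [hd] at h1
    exact h1
  -- relations which leave the last block
  have hU : ∀ x z : ℕ → ℕ, x 0 + x 1 + x 2 = 3 → 1 ≤ x 2 →
      (O2 (FC.ofFIC β) ∨ 1 ≤ x 0) → z 0 + z 1 + z 2 = 3 → z 2 = 0 →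
      L1 β 2 x z → False := by
    intro x z hx hx3 ho hz hz3 h
    have h1 := l1_push (bmap2 (a := 0) (b := 0) (c := 1) (k' := 1) (by omega) (by omega)
      (by omega)) h
    rw [p001, p001] at h1
    have e : z 0 + z 1 = 3 := by omega
    rw [e, hz3] at h1
    refine hO3 (o3_of_rel hO1 (by omega) hx3 h1 ?_)
    rcases ho with ho | ho1
    · exact Or.inl ho
    · exact Or.inr (by omega)
  -- relations of the type `(1,1,1)`
  have hV : ∀ x z : ℕ → ℕ, (x 0 = 1 ∧ x 1 = 1 ∧ x 2 = 1) → deg 2 z = 3 →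
      ¬ (z 0 = 1 ∧ z 1 = 1 ∧ z 2 = 1) → L1 β 2 x z → False := by
    intro x z hx hz hne h
    obtain ⟨x0, x1, x2⟩ := hx
    have hspx : sp 2 x = {0, 1, 2} := by
      ext j
      rw [mem_sp]
      simp only [Finset.mem_insert, Finset.mem_singleton]
      constructor
      · rintro ⟨h1, h2⟩
        omega
      · rintro (rfl | rfl | rfl) <;> constructor <;> omega
    have hsp : sp 2 x ≠ sp 2 z := by
      intro he
      apply hne
      rw [hspx] at he
      have m0 : (0 : ℕ) ∈ sp 2 z := by rw [← he]; simp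
      have m1 : (1 : ℕ) ∈ sp 2 z := by rw [← he]; simp
      have m2 : (2 : ℕ) ∈ sp 2 z := by rw [← he]; simp
      rw [mem_sp] at m0 m1 m2
      rw [deg2] at hz
      have := m0.2; have := m1.2; have := m2.2
      exact ⟨by omega, by omega, by omega⟩
    have hdx : deg 2 x = 3 := by rw [deg2]; omega
    have h1 := (hOAR (FC.ofFIC β) 2 x z (Or.inl hO1) (by omega) (by omega) h hsp).1
    have hcard : (sp 2 x).card = 3 := by rw [hspx]; rfl
    rw [hdx] at h1
    have s1 : sp 2 (v3 1 1 1) = {0, 1, 2} := by decide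
    have s2 : sp 2 (v3 2 0 1) = {0, 2} := by decide
    apply hII
    refine h1 2 (v3 1 1 1) (v3 2 0 1) (by decide) (by decide) ?_ ?_ ?_ ?_
    · rw [s1]
      refine le_trans ?_ (le_max_left _ _)
      rw [hcard]; decide
    · rw [s2]
      refine le_trans ?_ (le_max_left _ _)
      rw [hcard]; decide
    · rw [s1, s2]; decide
    · rw [s1, s2]; decide
  -- the congruence `G1`
  have hG1 : β ≤ GT 2 Tc1 := by
    refine hGTB β hth (nc2_of_iso3 hi) hcl 2 2 Tc1 tc1_ext tc1_last ?_ ?_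
    · intro a b a' b' hT ha hb
      refine ⟨?_, yc_iso hISO hth hi hT.2 hb⟩
      by_contra hne
      have hda : deg 2 a = 3 := by
        obtain ⟨⟨h0, h1, h2⟩, -⟩ := hT
        rw [deg2]; omega
      by_cases hd : deg 2 a' = 3
      · exact hV a a' hT.1 hd hne ha
      · exact hV a (sg 0 3) hT.1 (by decide) (by simp [sg]) (hW a a' hda ha hd)
    · intro a b hT hBt
      have hl := tc1_last a b hT
      obtain ⟨⟨h0, h1, h2⟩, g0, g1, g2⟩ := hT
      have h4 := F4 2 2 _ a b 2 (bmap2 (a := 0) (b := 1) (c := 2) (by omega) (by omega)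
        (by omega)) hl.1 hl.2.1 (le_refl 2) hl.2.2.1 hl.2.2.2 hBt
      rw [p012, p012, h0, h1, h2, g0, g1, g2] at h4
      exact hh2 h4
  have hG2 : β ≤ GT 2 (Tc2 β) := by
    refine hGTB β hth (nc2_of_iso3 hi) hcl 2 2 (Tc2 β) (tc2_ext β) (tc2_last β) ?_ ?_
    · intro a b a' b' hT ha hb
      obtain ⟨hy, hs, ha3, ho⟩ := hT
      have hda : deg 2 a = 3 := by rw [deg2]; omega
      have hd : deg 2 a' = 3 := by
        by_contra hd
        exact hU a (sg 0 3) hs ha3 ho (by simp [sg]) (by simp [sg]) (hW a a' hda ha hd)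
      have hs' : a' 0 + a' 1 + a' 2 = 3 := by rw [← deg2]; exact hd
      have ha3' : 1 ≤ a' 2 := by
        by_contra hlt
        exact hU a a' hs ha3 ho hs' (by omega) ha
      refine ⟨yc_iso hISO hth hi hy hb, hs', ha3', ?_⟩
      rcases ho with ho | ho1
      · exact Or.inl ho
      by_cases hc0 : 1 ≤ a' 0
      · exact Or.inr hc0
      · left
        have h1 := l1_push (bmap2 (a := 0) (b := 1) (c := 1) (k' := 1) (by omega)
          (by omega) (by omega)) ha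
        rw [p011, p011] at h1
        have e1 : a' 0 = 0 := by omega
        have e2 : a' 1 + a' 2 = 3 := by omega
        rw [e1, e2] at h1
        have hcase : a 0 = 1 ∨ a 0 = 2 := by omega
        rcases hcase with hc | hc
        · have e3 : a 1 + a 2 = 2 := by omega
          rw [hc, e3] at h1
          exact h1
        · have e3 : a 1 + a 2 = 1 := by omega
          rw [hc, e3] at h1
          exact l1_trans (l1_symm h21) h1
    · intro a b hT hBt
      have hl := tc2_last β a b hT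
      obtain ⟨⟨g0, g1, g2⟩, hs, ha3, ho⟩ := hT
      have h4 := F4 2 2 _ a b 2 (bmap2 (a := 0) (b := 1) (c := 2) (by omega) (by omega)
        (by omega)) hl.1 hl.2.1 (le_refl 2) hl.2.2.1 hl.2.2.2 hBt
      rw [p012, p012, g0, g1, g2] at h4
      have h4' : Bt β 2 (v3 (a 0) (a 1) (a 2)) (v3 0 1 1) 2 := h4
      by_cases hx0 : 1 ≤ a 0
      · have hcase : (a 0 = 1 ∧ a 1 = 1 ∧ a 2 = 1) ∨ (a 0 = 2 ∧ a 1 = 0 ∧ a 2 = 1) ∨
            (a 0 = 1 ∧ a 1 = 0 ∧ a 2 = 2) := by omega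
        rcases hcase with ⟨c0, c1, c2⟩ | ⟨c0, c1, c2⟩ | ⟨c0, c1, c2⟩
        · rw [c0, c1, c2] at h4'
          exact hh2 h4'
        · rw [c0, c1, c2] at h4'
          exact hg2 h4'
        · rw [c0, c1, c2] at h4'
          have q : L1 β 2 (v3 2 0 1) (v3 1 0 2) := by
            have h1 := l1_push (bmap1 (a := 0) (b := 2) (k' := 2) (by omega) (by omega)) h21
            rw [p02, p02] at h1
            exact h1
          exact hg2 (F2 2 _ _ _ _ q h4')
      · have ho2 : O2 (FC.ofFIC β) := by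
          rcases ho with ho | ho
          · exact ho
          · exact absurd ho hx0
        have h12 : L1 β 1 (v2 1 2) (v2 0 3) := ho2
        have q1 : L1 β 2 (v3 2 0 1) (v3 0 0 3) := by
          have h1 := l1_push (bmap1 (a := 0) (b := 2) (k' := 2) (by omega) (by omega))
            (l1_trans h21 h12)
          rw [p02, p02] at h1
          exact h1
        have q2 : L1 β 2 (v3 0 2 1) (v3 0 0 3) := by
          have h1 := l1_push (bmap1 (a := 1) (b := 2) (k' := 2) (by omega) (by omega))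
            (l1_trans h21 h12)
          rw [p12, p12] at h1
          exact h1
        have q3 : L1 β 2 (v3 0 1 2) (v3 0 0 3) := by
          have h1 := l1_push (bmap1 (a := 1) (b := 2) (k' := 2) (by omega) (by omega)) h12
          rw [p12, p12] at h1
          exact h1
        have hcase : (a 0 = 0 ∧ a 1 = 2 ∧ a 2 = 1) ∨ (a 0 = 0 ∧ a 1 = 1 ∧ a 2 = 2) ∨
            (a 0 = 0 ∧ a 1 = 0 ∧ a 2 = 3) := by omega
        rcases hcase with ⟨c0, c1, c2⟩ | ⟨c0, c1, c2⟩ | ⟨c0, c1, c2⟩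
        · rw [c0, c1, c2] at h4'
          exact hg2 (F2 2 _ _ _ _ (l1_trans q1 (l1_symm q2)) h4')
        · rw [c0, c1, c2] at h4'
          exact hg2 (F2 2 _ _ _ _ (l1_trans q1 (l1_symm q3)) h4')
        · rw [c0, c1, c2] at h4'
          exact hg2 (F2 2 _ _ _ _ q1 h4')
  -- the exchange in `G1`
  have hBt1 : Bt (GT 2 Tc1) 2 (v3 2 0 1) (v3 0 1 1) 2 := by
    refine hGTS 2 Tc1 tc1_ext tc1_deg 2 _ _ (by decide) (by decide) ?_ 2
    intro f hf hT
    obtain ⟨⟨h0, h1, h2⟩, -⟩ := hT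
    exact no_psh_c f h0 h1
  -- the type change in `G2`
  have hL2 : L1 (GT 2 (Tc2 β)) 2 (v3 2 0 1) (v3 1 1 1) := by
    refine hGTK 2 (Tc2 β) (tc2_ext β) (tc2_deg β) 2 _ _ (by decide) (by decide) (by decide)
      (by decide) ?_
    intro f hf b
    have key := key_c f (hf.mono 0 1 (by omega) (by omega)) (hf.mono 1 2 (by omega) (by omega))
      (hf.le 2 (by omega))
    unfold Tc2
    constructor
    · rintro ⟨h1, h2, h3, h4⟩
      refine ⟨h1, key.1.mp h2, key.2.1.mp h3, ?_⟩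
      rcases h4 with h4 | h4
      · exact Or.inl h4
      · exact Or.inr ((key.2.2 h3).mp h4)
    · rintro ⟨h1, h2, h3, h4⟩
      have h3' := key.2.1.mpr h3
      refine ⟨h1, key.1.mpr h2, h3', ?_⟩
      rcases h4 with h4 | h4
      · exact Or.inl h4
      · exact Or.inr ((key.2.2 h3').mpr h4)
  have hfin := hLNN β hth (nc2_of_iso3 hi) (hGAA β hcl) (hRGA β hcl) hA.md _ _ hG1 hG2 2
    (v3 2 0 1) (v3 1 1 1) (v3 0 1 1) 2 (by decide) (by decide) (by decide) (le_refl 2)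
    hBt1 hL2
  rcases hfin with h | h
  · exact hGTN 2 2 Tc1 tc1_ext tc1_last (le_refl 2) _ _
      ⟨⟨rfl, rfl, rfl⟩, rfl, rfl, rfl⟩ h
  · exact hGTN 2 2 (Tc2 β) (tc2_ext β) (tc2_last β) (le_refl 2) _ _
      ⟨⟨rfl, rfl, rfl⟩, rfl, by decide, Or.inr (by decide)⟩ h

end Pool.Agent.MVO.H43
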